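import Pool.Agent.Restart.Main

/-!
For rational `a` the root vectors of the point-restart Laplacian form a Schauder basis.
-/

namespace Pool.Agent.Results.MP_1ebdda_an.RationalBasis

open Pool.Agent.Restart

/-- For every rational `a` between `-1` and `1` some enumeration of some root system of the
operator is a Schauder basis of `L²((-π/2, π/2))`. -/
theorem result : ∀ a : ℚ, -1 < a → a < 1 →
    ∃ ψ : ℕ → Space, IsRootSystem (a : ℝ) ψ ∧ IsSchauderBasis ψ := main

end Pool.Agent.Results.MP_1ebdda_an.RationalBasis
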